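import Pool.Agent.K3h5.IB.Stm

/-!
# IB brick BC: the ergodic theorem along the cut times
-/

set_option autoImplicit false

open MeasureTheory Filter Topology

namespace Pool.Agent.K3h54.IB

open Pool.Agent.K3h5.IB

/-! ### two-sided sequences -/

section glue

variable {Z : Type} [MeasurableSpace Z]

/-- the two-sided sequence with the negative half `z.1` and the nonnegative half `z.2` -/
def glue (z : (ℕ → Z) × (ℕ → Z)) : ℤ → Z
  | Int.ofNat k => z.2 k
  | Int.negSucc k => z.1 k

lemma measurable_glue : Measurable (glue (Z := Z)) := by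
  apply measurable_pi_lambda
  rintro (k | k)
  · exact (measurable_pi_apply k).comp measurable_snd
  · exact (measurable_pi_apply k).comp measurable_fst

lemma map_glue (ν : Measure Z) [IsProbabilityMeasure ν] :
    ((Measure.infinitePi fun _ : ℕ => ν).prod (Measure.infinitePi fun _ : ℕ => ν)).map glue =
      Measure.infinitePi fun _ : ℤ => ν := by
  classical
  apply Measure.eq_infinitePi
  intro s t ht
  rw [Measure.map_apply measurable_glue
    (MeasurableSet.pi (Finset.countable_toSet s) (fun i _ => ht i))]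
  have hi1 : Function.Injective Int.negSucc := fun a b h => by simpa using h
  have hi2 : Function.Injective Int.ofNat := fun a b h => by simpa using h
  set s1 := s.preimage Int.negSucc hi1.injOn with hs1
  set s2 := s.preimage Int.ofNat hi2.injOn with hs2
  have e : glue ⁻¹' ((s : Set ℤ).pi t) =
      ((s1 : Set ℕ).pi fun k => t (Int.negSucc k)) ×ˢ ((s2 : Set ℕ).pi fun k => t (Int.ofNat k)) := by
    ext z
    constructor
    · intro h
      refine ⟨fun k hk => ?_, fun k hk => ?_⟩
      · exact h (Int.negSucc k) (Finset.mem_preimage.1 hk)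
      · exact h (Int.ofNat k) (Finset.mem_preimage.1 hk)
    · rintro ⟨h1, h2⟩ (k | k) hk
      · exact h2 k (Finset.mem_coe.2 (Finset.mem_preimage.2 hk))
      · exact h1 k (Finset.mem_coe.2 (Finset.mem_preimage.2 hk))
  rw [e, Measure.prod_prod, Measure.infinitePi_pi _ (fun i _ => ht _),
    Measure.infinitePi_pi _ (fun i _ => ht _)]
  rw [hs1, hs2, Finset.prod_preimage' Int.negSucc s hi1.injOn (fun i => ν (t i)),
    Finset.prod_preimage' Int.ofNat s hi2.injOn (fun i => ν (t i)),
    ← Finset.prod_filter_mul_prod_filter_not s (fun x => x ∈ Set.range Int.negSucc)]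
  congr 1
  apply Finset.prod_congr _ (fun _ _ => rfl)
  apply Finset.filter_congr
  rintro (k | k) _
  · constructor
    · rintro _ ⟨j, hj⟩
      cases hj
    · intro _
      exact ⟨k, rfl⟩
  · constructor
    · rintro ⟨j, hj⟩
      cases hj
    · intro h
      exact absurd ⟨k, rfl⟩ h

end glue

/-! ### heights -/

variable {d : ℕ}

/-- the height of the step -/
noncomputable def bb (δ : Fin d → ℝ) (s : S d) : ℝ := ht δ (vec (s none))

/-- the height of the path -/
noncomputable def hp (δ : Fin d → ℝ) (x : ℕ → S d) (n : ℕ) : ℝ :=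
  ∑ k ∈ Finset.range n, bb δ (x k)

lemma ht_path0 (δ : Fin d → ℝ) (x : ℕ → S d) (n : ℕ) : ht δ (path0 x n) = hp δ x n := by
  unfold ht path0 hp bb ht
  rw [Finset.sum_comm]
  apply Finset.sum_congr rfl
  intro j _
  rw [Finset.sum_apply, Int.cast_sum, Finset.mul_sum]

lemma cut_iff (δ : Fin d → ℝ) (x : ℕ → S d) (c : ℕ) :
    Cut δ x c ↔ (∀ j ≤ c, hp δ x j ≤ hp δ x c) ∧ ∀ j > c, hp δ x c < hp δ x j := by
  unfold Cut
  simp only [ht_path0]

lemma hp_sh (δ : Fin d → ℝ) (x : ℕ → S d) (k j : ℕ) : hp δ (sh k x) j = hp δ x (k + j) - hp δ x k := by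
  unfold hp sh
  rw [Finset.sum_range_add, add_sub_cancel_left]
  apply Finset.sum_congr rfl
  intro i _
  rw [add_comm]

lemma cut_sh (δ : Fin d → ℝ) (x : ℕ → S d) (k : ℕ) :
    Cut δ (sh k x) 0 ↔ ∀ j > k, hp δ x k < hp δ x j := by
  rw [cut_iff]
  constructor
  · rintro ⟨-, h⟩ j hj
    have := h (j - k) (by omega)
    rw [hp_sh, hp_sh, show k + (j - k) = j by omega, add_zero, sub_self] at this
    linarith
  · intro h
    refine ⟨fun j hj => ?_, fun j hj => ?_⟩
    · rw [Nat.le_zero.1 hj]
    · rw [hp_sh, hp_sh, add_zero, sub_self]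
      have := h (k + j) (by omega)
      linarith

/-- the negative half of the shifted sequence -/
lemma neg_sum (δ : Fin d → ℝ) (u v : ℕ → S d) (k : ℕ) :
    (∀ j ≤ k, ∑ i ∈ Finset.range j, bb δ (glue (u, v) (Int.negSucc i + k)) = hp δ v k - hp δ v (k - j)) ∧
    ∀ l, ∑ i ∈ Finset.range (k + l), bb δ (glue (u, v) (Int.negSucc i + k)) = hp δ v k + hp δ u l := by
  have h1 : ∀ j ≤ k, ∑ i ∈ Finset.range j, bb δ (glue (u, v) (Int.negSucc i + k)) =
      hp δ v k - hp δ v (k - j) := by
    intro j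
    induction j with
    | zero =>
      intro _
      rw [Finset.sum_range_zero, Nat.sub_zero, sub_self]
    | succ j ih =>
      intro hj
      rw [Finset.sum_range_succ, ih (by omega)]
      have e1 : (Int.negSucc j + (k : ℤ)) = Int.ofNat (k - (j + 1)) := by
        rw [Int.negSucc_eq, Int.ofNat_eq_natCast]
        omega
      rw [e1]
      have e2 : hp δ v (k - j) = hp δ v (k - (j + 1)) + bb δ (v (k - (j + 1))) := by
        rw [show k - j = k - (j + 1) + 1 by omega]
        unfold hp
        rw [Finset.sum_range_succ]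
      rw [e2]
      change _ + bb δ (v (k - (j + 1))) = _
      ring
  refine ⟨h1, fun l => ?_⟩
  induction l with
  | zero =>
    rw [add_zero, h1 k le_rfl, Nat.sub_self]
    unfold hp
    rw [Finset.sum_range_zero]
    ring
  | succ l ih =>
    rw [← add_assoc, Finset.sum_range_succ, ih]
    have e1 : (Int.negSucc (k + l) + (k : ℤ)) = Int.negSucc l := by
      rw [Int.negSucc_eq, Int.negSucc_eq]
      push_cast
      ring
    rw [e1]
    have e2 : hp δ u (l + 1) = hp δ u l + bb δ (u l) := by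
      unfold hp
      rw [Finset.sum_range_succ]
    rw [e2]
    change _ + bb δ (u l) = _
    ring

/-- the set of the negative halves -/
def AA (δ : Fin d → ℝ) : Set (ℕ → S d) := {u | ∀ j, 0 ≤ hp δ u j}

lemma mem_AA_shift (δ : Fin d → ℝ) (u v : ℕ → S d) (k : ℕ) (hE : ∀ l, 0 ≤ hp δ v k + hp δ u l) :
    (fun i : ℕ => glue (u, v) (Int.negSucc i + k)) ∈ AA δ ↔ ∀ j ≤ k, hp δ v j ≤ hp δ v k := by
  obtain ⟨h1, h2⟩ := neg_sum δ u v k
  have e : ∀ j, hp δ (fun i : ℕ => glue (u, v) (Int.negSucc i + k)) j =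
      ∑ i ∈ Finset.range j, bb δ (glue (u, v) (Int.negSucc i + k)) := fun j => rfl
  constructor
  · intro h j hj
    have h3 := h (k - j)
    rw [e, h1 (k - j) (Nat.sub_le _ _), show k - (k - j) = j by omega] at h3
    linarith
  · intro h j
    rw [e]
    rcases le_or_gt j k with hj | hj
    · rw [h1 j hj]
      have := h (k - j) (Nat.sub_le _ _)
      linarith
    · have := h2 (j - k)
      rw [show k + (j - k) = j by omega] at this
      rw [this]
      exact hE _

lemma measurable_hp (δ : Fin d → ℝ) (j : ℕ) : Measurable fun u : ℕ → S d => hp δ u j := by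
  unfold hp
  apply Finset.measurable_sum
  intro k _
  have h1 : Measurable fun u : ℕ → S d => u k none :=
    (measurable_pi_apply none).comp (measurable_pi_apply k)
  exact (Measurable.of_discrete (f := fun e : D d => ht δ (vec e))).comp h1

lemma measurableSet_AA (δ : Fin d → ℝ) : MeasurableSet (AA δ) := by
  unfold AA
  rw [show {u : ℕ → S d | ∀ j, 0 ≤ hp δ u j} = ⋂ j, {u | 0 ≤ hp δ u j} by
    ext u
    simp]
  exact MeasurableSet.iInter fun j => measurableSet_le measurable_const (measurable_hp δ j)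

/-- averages which differ in finitely many terms -/
lemma tendsto_avg {a b : ℕ → ℝ} {L : ℝ} (k0 : ℕ) (h : ∀ k ≥ k0, a k = b k)
    (ha : Tendsto (fun n : ℕ => (∑ k ∈ Finset.range n, a k) / n) atTop (𝓝 L)) :
    Tendsto (fun n : ℕ => (∑ k ∈ Finset.range n, b k) / n) atTop (𝓝 L) := by
  have h1 : Tendsto (fun n : ℕ => (∑ k ∈ Finset.range n, a k) / n +
      (∑ k ∈ Finset.range k0, (b k - a k)) / (n : ℝ)) atTop (𝓝 (L + 0)) :=
    ha.add (tendsto_const_div_atTop_nhds_zero_nat _)
  rw [add_zero] at h1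
  apply h1.congr'
  filter_upwards [eventually_ge_atTop k0] with n hn
  rw [← add_div]
  congr 1
  have h2 : ∑ k ∈ Finset.range n, (b k - a k) = ∑ k ∈ Finset.range k0, (b k - a k) := by
    symm
    apply Finset.sum_subset
    · intro k hk
      rw [Finset.mem_range] at hk ⊢
      omega
    · intro k _ hk
      rw [Finset.mem_range, not_lt] at hk
      rw [h k hk, sub_self]
  rw [← h2, Finset.sum_sub_distrib]
  ring

open Classical in
theorem t_BC : S_PROB → S_LLN → S_POS → S_EB → S_MEAS2 → S_BC := by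
  intro hPROB hLLN hPOS hEB hMEAS d p q hpar
  obtain ⟨-, hnu, hPP, -⟩ := hPROB d p q hpar
  set δ : Fin d → ℝ := drift (p 0) with hδ
  have hGm : MeasurableSet {x : ℕ → S d | Cut δ x 0} := (hMEAS d δ).1 0
  have hAm := measurableSet_AA δ
  have hr : 0 < (PP p q).real (AA δ) := by
    refine lt_of_lt_of_le (hPOS d p q hpar) (measureReal_mono ?_)
    intro u hu j
    have h1 := (cut_iff δ u 0).1 hu
    have h0 : hp δ u 0 = 0 := by
      unfold hp
      rw [Finset.sum_range_zero]
    rcases Nat.eq_zero_or_pos j with hj | hj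
    · rw [hj, h0]
    · have := h1.2 j hj
      rw [h0] at this
      exact this.le
  refine ⟨(PP p q).real (AA δ), hr, fun g hg hg0 hgi => ?_⟩
  -- the function on the two-sided sequences
  set f : (ℤ → S d) → ℝ := fun w => (AA δ).indicator (fun _ => (1 : ℝ)) (fun i : ℕ => w (Int.negSucc i)) *
    ({x : ℕ → S d | Cut δ x 0}.indicator g) (fun k : ℕ => w (Int.ofNat k)) with hf
  have hnegm : Measurable fun (w : ℤ → S d) (i : ℕ) => w (Int.negSucc i) :=
    measurable_pi_lambda _ fun i => measurable_pi_apply _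
  have hposm : Measurable fun (w : ℤ → S d) (i : ℕ) => w (Int.ofNat i) :=
    measurable_pi_lambda _ fun i => measurable_pi_apply _
  have hfm : Measurable f :=
    ((measurable_const.indicator hAm).comp hnegm).mul ((hg.indicator hGm).comp hposm)
  have hQ := map_glue (nu p q)
  have hfg : ∀ z : (ℕ → S d) × (ℕ → S d), f (glue z) = (AA δ).indicator (fun _ => (1 : ℝ)) z.1 *
      ({x : ℕ → S d | Cut δ x 0}.indicator g) z.2 := fun z => rfl
  have hi1 : Integrable ((AA δ).indicator (fun _ => (1 : ℝ))) (PP p q) :=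
    (integrable_const 1).indicator hAm
  have hi2 : Integrable ({x : ℕ → S d | Cut δ x 0}.indicator g) (PP p q) :=
    (integrable_indicator_iff hGm).2 hgi
  have hfi : Integrable f (Measure.infinitePi fun _ : ℤ => nu p q) := by
    rw [← hQ, integrable_map_measure hfm.aestronglyMeasurable measurable_glue.aemeasurable]
    exact hi1.mul_prod hi2
  have hint : ∫ w, f w ∂(Measure.infinitePi fun _ : ℤ => nu p q) =
      (PP p q).real (AA δ) * ∫ x in {x | Cut δ x 0}, g x ∂(PP p q) := by
    rw [← hQ, integral_map measurable_glue.aemeasurable hfm.aestronglyMeasurable]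
    change ∫ z, (AA δ).indicator (fun _ => (1 : ℝ)) z.1 *
      ({x : ℕ → S d | Cut δ x 0}.indicator g) z.2 ∂((PP p q).prod (PP p q)) = _
    rw [integral_prod_mul ((AA δ).indicator (fun _ => (1 : ℝ)))
      ({x : ℕ → S d | Cut δ x 0}.indicator g), integral_indicator hGm]
    congr 1
    exact integral_indicator_one hAm
  have hEBf := hEB (S d) (nu p q) f hfm hfi
  rw [hint, ← hQ] at hEBf
  have hEB2 := ae_of_ae_map measurable_glue.aemeasurable hEBf
  have hEB3 : ∀ᵐ u ∂(PP p q), ∀ᵐ v ∂(PP p q), Tendsto (fun n : ℕ => (∑ k ∈ Finset.range n,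
      f (fun i => glue (u, v) (i + k))) / n) atTop
      (𝓝 ((PP p q).real (AA δ) * ∫ x in {x | Cut δ x 0}, g x ∂(PP p q))) :=
    Measure.ae_ae_of_ae_prod hEB2
  obtain ⟨u, hu1, hu2⟩ := (hEB3.and (hLLN d p q hpar)).exists
  filter_upwards [hu1, hLLN d p q hpar] with v hv1 hv2
  -- the path `u` is bounded below
  obtain ⟨C, hC⟩ : ∃ C : ℝ, ∀ n, -C ≤ hp δ u n := by
    obtain ⟨N, hN⟩ := hu2.2.2 0
    refine ⟨∑ n ∈ Finset.range N, |hp δ u n|, fun n => ?_⟩
    rcases lt_or_ge n N with hn | hn
    · have h1 : |hp δ u n| ≤ ∑ n ∈ Finset.range N, |hp δ u n| :=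
        Finset.single_le_sum (f := fun n => |hp δ u n|) (fun i _ => abs_nonneg _)
          (Finset.mem_range.2 hn)
      have h2 := neg_abs_le (hp δ u n)
      linarith
    · have h1 := hN n hn
      rw [ht_path0] at h1
      have h2 : 0 ≤ ∑ n ∈ Finset.range N, |hp δ u n| := Finset.sum_nonneg fun i _ => abs_nonneg _
      linarith
  obtain ⟨k0, hk0⟩ := hv2.2.2 C
  refine tendsto_avg k0 (fun k hk => ?_) hv1
  have hE : ∀ l, 0 ≤ hp δ v k + hp δ u l := by
    intro l
    have h1 := hk0 k hk
    rw [ht_path0] at h1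
    have h2 := hC l
    linarith
  have e1 := mem_AA_shift δ u v k hE
  have e2 := cut_sh δ v k
  have e3 := cut_iff δ v k
  have e4 : (fun i : ℕ => glue (u, v) (Int.ofNat i + (k : ℤ))) = sh k v := rfl
  change (AA δ).indicator (fun _ => (1 : ℝ)) (fun i : ℕ => glue (u, v) (Int.negSucc i + (k : ℤ))) *
    ({x : ℕ → S d | Cut δ x 0}.indicator g) (fun i : ℕ => glue (u, v) (Int.ofNat i + (k : ℤ))) = _
  rw [e4]
  by_cases hc : Cut δ v k
  · obtain ⟨c1, c2⟩ := e3.1 hc
    rw [if_pos hc, Set.indicator_of_mem (e1.2 c1), one_mul,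
      Set.indicator_of_mem (show sh k v ∈ {x : ℕ → S d | Cut δ x 0} from e2.2 c2)]
  · rw [if_neg hc]
    by_cases c1 : ∀ j ≤ k, hp δ v j ≤ hp δ v k
    · have c2 : ¬ ∀ j > k, hp δ v k < hp δ v j := fun h => hc (e3.2 ⟨c1, h⟩)
      rw [Set.indicator_of_notMem (s := {x : ℕ → S d | Cut δ x 0}) (fun h => c2 (e2.1 h)), mul_zero]
    · rw [Set.indicator_of_notMem (fun h => c1 (e1.1 h)), zero_mul]

end Pool.Agent.K3h54.IB
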